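import Pool.Agent.Helper2.ST.Final

/-!
# MP_3942cb_co: full answer to Q1 (positive)

Every complex zero of the third-order Stirling subset polynomial is `0` or has negative real part.
-/

namespace Pool.Agent.Results.MP_3942cb_co.LeftHalfPlane

/-- For every `n`, every complex zero `z` of `s_{3,n}(z) = sum_{k=0}^n {n over k}^(3) z^k` satisfies
`z = 0` or `Re z < 0`. Here `{n over k}^(3)` is the number of partitions of a set with `n + 2k` elements
into `k` blocks, each of size at least three. -/
theorem result (n : ℕ) (z : ℂ)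
    (hz : ∑ k ∈ Finset.range (n + 1),
      (({p : Finpartition (Finset.univ : Finset (Fin (n + 2 * k))) |
        p.parts.card = k ∧ ∀ B ∈ p.parts, 3 ≤ B.card}.ncard : ℕ) : ℂ) * z ^ k = 0) :
    z = 0 ∨ z.re < 0 := by
  by_contra hcon
  push Not at hcon
  apply ST3.s_ne_zero n z hcon.2 hcon.1
  rw [← hz]
  unfold ST3.s
  refine Finset.sum_congr rfl fun k _ => ?_
  rw [← ST3.ncard_parts]
  rfl

end Pool.Agent.Results.MP_3942cb_co.LeftHalfPlane
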